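import Pool.Agent.TorusAA.Main
import Pool.Agent.TorusAA.Gain
import Pool.Agent.TorusAA.MS
import Pool.Agent.TorusAA.Energy
import Pool.Agent.TorusAA.Pair
import Pool.Agent.TorusAA.BoxPair
import Pool.Agent.TorusAA.CtMul
import Pool.Agent.TorusAA.Triple
import Pool.Agent.TorusAA.TLem
import Pool.Agent.TorusAA.Five
import Pool.Agent.TorusAA.Lin
import Pool.Agent.TorusAA.Config
import Pool.Agent.TorusAA.Count
import Pool.Agent.TorusAA.Exc

namespace Pool.Agent.Results.MP_5cc19c_an.AlmostAllEigenvalues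

open MeasureTheory Pool.Agent.TorusL4 Pool.Agent.TorusAA

/-- **Trace inequality on `T^3` for almost all eigenvalues and all densities in `L^2`.**
There are `η > 0`, `C` and a set `E` with at most `C X^(1-η)` elements up to `X` such that for
every eigenvalue `n` outside `E`, every eigenfunction `u` with eigenvalue `n` and every
`f ∈ L^2(T^3)`: `∫ |f| |u|^2 ≤ C ‖f‖_2 ∫ |u|^2`. (With `f = |u|^2` this is the uniform bound
`‖u‖_4^2 ≤ C ‖u‖_2^2`.) -/
theorem result : ∃ (η C : ℝ) (E : Set ℕ), 0 < η ∧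
    (∀ X : ℕ, 1 ≤ X →
      (Nat.card {n : ℕ | 1 ≤ n ∧ n ≤ X ∧ n ∈ E} : ℝ) ≤ C * (X : ℝ) ^ (1 - η)) ∧
    ∀ (n : ℕ) (u : (Fin 3 → ℝ) → ℂ), n ∉ E → IsEigen n u →
      ∀ f : (Fin 3 → ℝ) → ℝ, MemLp f 2 (volume.restrict cube) →
        ∫ x in cube, |f x| * ‖u x‖ ^ 2 ≤
          C * (∫ x in cube, f x ^ 2) ^ (1 / 2 : ℝ) * ∫ x in cube, ‖u x‖ ^ 2 := by
  obtain ⟨η, C, E, h1, h2, h3⟩ := main_aa gain_thm (energy ms) ctmul
    (exc (cfg (boxpair pair_thm) triple tlem five lin) count)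
  exact ⟨η, C, E, h1, h2, fun n u hn hu => (h3 n u hn hu).2⟩

end Pool.Agent.Results.MP_5cc19c_an.AlmostAllEigenvalues
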