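import Pool.Agent.TorusTrace.Final

set_option autoImplicit false

open MeasureTheory
open scoped ENNReal NNReal

namespace Pool.Agent.Results.MP_5cc19c_an.DecreasingDensities

/-- **Trace inequality for coordinatewise decreasing densities and their superpositions.**
`T` is the period (`T = 2 * π` is the torus of the problem), the functions
`x ↦ ∑ k ∈ s, a k * ∏ i, fourier (k i) (x i)` with `∑ i, k i ^ 2 = n` on `s` are the
eigenfunctions. The density `f` is at most `∫ F ω dν(ω)`; each `F ω` is arbitrary in the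
coordinates of a set `J ω` of at most two coordinates and nonincreasing in the distances
`|x i - y ω i|` for the other coordinates `i`, and `p` is larger than `(d + |J ω|) / 2` and
`|J ω| + 1` (for `J ω = ∅` this is `p > d / 2`). -/
theorem result (T : ℝ) [Fact (0 < T)] (d : ℕ) (hd : 2 ≤ d) (p : ℝ) :
    ∃ C : ℝ≥0, ∀ (Ω : Type) (_ : MeasurableSpace Ω) (ν : Measure Ω) (_ : SFinite ν)
      (J : Ω → Finset (Fin d)) (y : Ω → Fin d → AddCircle T)
      (F : Ω → (Fin d → AddCircle T) → ℝ≥0∞), Measurable (Function.uncurry F) →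
      (∀ ω, (J ω).card ≤ 2 ∧ ((d : ℝ) + (J ω).card) / 2 < p ∧ ((J ω).card : ℝ) + 1 < p) →
      (∀ ω x x', (∀ i ∈ J ω, x i = x' i) →
        (∀ i ∉ J ω, ‖x i - y ω i‖ ≤ ‖x' i - y ω i‖) → F ω x' ≤ F ω x) →
      ∀ f : (Fin d → AddCircle T) → ℝ≥0∞, (∀ᵐ x, f x ≤ ∫⁻ ω, F ω x ∂ν) →
      ∀ (n : ℤ) (s : Finset (Fin d → ℤ)) (a : (Fin d → ℤ) → ℂ), (∀ k ∈ s, ∑ i, k i ^ 2 = n) →
      ∫⁻ x : Fin d → AddCircle T,
          ‖∑ k ∈ s, a k * ∏ i, (fourier (k i) (x i) : ℂ)‖ₑ ^ 2 * f x ≤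
        C * (∫⁻ ω, (∫⁻ x, F ω x ^ p) ^ (1 / p) ∂ν) *
          ∫⁻ x : Fin d → AddCircle T,
            ‖∑ k ∈ s, a k * ∏ i, (fourier (k i) (x i) : ℂ)‖ₑ ^ 2 := by
  obtain ⟨C, hC⟩ := Pool.Agent.TorusTrace.trace_superposition (T := T) hd p
  refine ⟨C, ?_⟩
  intro Ω mΩ ν hν J y F hF hJ hdec f hf n s a hs
  exact hC Ω mΩ ν hν J y F hF (fun ω => ⟨(hJ ω).1, Or.inl ⟨hdec ω, (hJ ω).2⟩⟩) f hf n s a hs

end Pool.Agent.Results.MP_5cc19c_an.DecreasingDensities
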