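import Pool.Agent.TorusL4.Main

namespace Pool.Agent.Results.MP_5cc19c_an.L4Log

open MeasureTheory Pool.Agent.TorusL4

/-- `L^4` bound with a logarithmic factor for exponential sums on `T^3` with frequencies on the
sphere `|k|^2 = n` at mutual distances at most `ρ`. With `ρ = 2 √n` this is the bound
`‖u‖_4^4 ≤ C (1 + log n) ‖u‖_2^4` for all eigenfunctions. -/
theorem result : ∃ C : ℝ, ∀ (n : ℕ) (s : Finset (Fin 3 → ℤ)) (c : (Fin 3 → ℤ) → ℂ) (ρ : ℝ),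
    1 ≤ n → 1 ≤ ρ → (∀ k ∈ s, ∑ i, k i ^ 2 = (n : ℤ)) →
    (∀ k ∈ s, ∀ l ∈ s, ((∑ i, (k i - l i) ^ 2 : ℤ) : ℝ) ≤ ρ ^ 2) →
    ∫ x in cube, ‖∑ k ∈ s, c k * ex k x‖ ^ 4 ≤
      C * ((1 + Real.log n) / (1 + max 0 (Real.log (n / ρ ^ 2)))) *
        (∫ x in cube, ‖∑ k ∈ s, c k * ex k x‖ ^ 2) ^ 2 :=
  ⟨K0, main_cap⟩

end Pool.Agent.Results.MP_5cc19c_an.L4Log
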