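import Pool.Agent.TorusL4.Main

namespace Pool.Agent.Results.MP_5cc19c_an.TraceLogTail

open MeasureTheory Pool.Agent.TorusL4

/-- The trace inequality on `T^3` for every density whose Fourier coefficients have square tails
`O(1 / log R)`. -/
theorem result : ∀ f : (Fin 3 → ℝ) → ℝ, IntegrableOn f cube →
    (∃ B : ℝ, ∀ R : ℝ, 2 ≤ R → ∀ F : Finset (Fin 3 → ℤ),
      (∀ h ∈ F, R ^ 2 < ((∑ i, h i ^ 2 : ℤ) : ℝ)) →
      ∑ h ∈ F, ‖fc (fun x => (f x : ℂ)) h‖ ^ 2 ≤ B / Real.log R) →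
    ∃ C : ℝ, ∀ (n : ℕ) (u : (Fin 3 → ℝ) → ℂ), IsEigen n u →
      ∫ x in cube, f x * ‖u x‖ ^ 2 ≤ C * ∫ x in cube, ‖u x‖ ^ 2 :=
  fun f hf ⟨B, hB⟩ => trace f hf B hB

end Pool.Agent.Results.MP_5cc19c_an.TraceLogTail
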